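import Mathlib
import Pool.Agent.S12455
import Pool.Agent.Helper456.HD.Final

set_option autoImplicit false

namespace Pool.Agent.Results.MP_2c0b9b_co.CentralLargeSets

open Finset

/-- A large set `LS[3](t,k,v)`: a colouring `f` of the subsets of a `v`-set by three colours such
that every `t`-subset lies in exactly `C(v-t,k-t)/3` sets of size `k` of each colour. -/
def LargeSetThree (t k v : ℕ) : Prop :=
  ∃ f : Finset (Fin v) → Fin 3, ∀ j : Fin 3, ∀ T : Finset (Fin v), T.card = t →
    3 * ((Finset.powersetCard k (Finset.univ : Finset (Fin v))).filter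
      (fun B => f B = j ∧ T ⊆ B)).card = (v - t).choose (k - t)

/-- The divisibility conditions. -/
def Feasible (t k v : ℕ) : Prop := ∀ i : ℕ, i ≤ t → 3 ∣ (v - i).choose (k - i)

/-- The divisibility conditions are necessary. -/
lemma feasible_of (t k v : ℕ) (htk : t ≤ k) (hkv : k ≤ v) (h : LargeSetThree t k v) :
    Feasible t k v := by
  classical
  obtain ⟨f, hf⟩ := h
  intro i hi
  obtain ⟨I, -, hI⟩ := Finset.exists_subset_card_eq (s := (Finset.univ : Finset (Fin v)))
    (n := i) (by rw [Finset.card_univ, Fintype.card_fin]; omega)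
  have hcardv : (Finset.univ : Finset (Fin v)).card = v := by
    rw [Finset.card_univ, Fintype.card_fin]
  set P := (Finset.powersetCard k (Finset.univ : Finset (Fin v))).filter (fun B => f B = 0)
    with hP
  set W := (Finset.powersetCard t (Finset.univ : Finset (Fin v))).filter (fun T => I ⊆ T)
    with hT
  -- double counting
  have h1 : ∑ T ∈ W, (P.filter (fun B => T ⊆ B)).card
      = ∑ B ∈ P, (W.filter (fun T => T ⊆ B)).card :=
    Finset.sum_card_bipartiteAbove_eq_sum_card_bipartiteBelow (s := W) (t := P)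
      (fun (T : Finset (Fin v)) (B : Finset (Fin v)) => T ⊆ B)
  have h2 : ∀ T ∈ W, 3 * (P.filter (fun B => T ⊆ B)).card = (v - t).choose (k - t) := by
    intro T hT'
    rw [hT, Finset.mem_filter, Finset.mem_powersetCard] at hT'
    have := hf 0 T hT'.1.2
    rw [← this, hP, Finset.filter_filter]
  have h3 : W.card = (v - i).choose (t - i) := by
    have := Pool.Agent.Helper456.HC.card_sup (Finset.univ : Finset (Fin v)) I t
      (Finset.subset_univ I) (by omega)
    rw [hI, Finset.card_univ, Fintype.card_fin] at this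
    exact this
  have h4 : ∀ B ∈ P, (W.filter (fun T => T ⊆ B)).card
      = if I ⊆ B then (k - i).choose (t - i) else 0 := by
    intro B hB
    rw [hP, Finset.mem_filter, Finset.mem_powersetCard] at hB
    split_ifs with hIB
    · have := Pool.Agent.Helper456.HC.card_sup B I t hIB (by omega)
      rw [hI, hB.1.2] at this
      rw [← this]
      congr 1
      ext T
      simp only [hT, Finset.mem_filter, Finset.mem_powersetCard, Finset.subset_univ, true_and]
      tauto
    · rw [Finset.card_eq_zero, Finset.filter_eq_empty_iff]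
      intro T hT' hTB
      rw [hT, Finset.mem_filter] at hT'
      exact hIB (hT'.2.trans hTB)
  have h5 : ∑ B ∈ P, (W.filter (fun T => T ⊆ B)).card
      = (k - i).choose (t - i) * (P.filter (fun B => I ⊆ B)).card := by
    rw [Finset.sum_congr rfl h4, ← Finset.sum_filter, Finset.sum_const, smul_eq_mul, mul_comm]
  have h6 : 3 * ∑ T ∈ W, (P.filter (fun B => T ⊆ B)).card
      = (v - i).choose (t - i) * (v - t).choose (k - t) := by
    rw [Finset.mul_sum, Finset.sum_congr rfl h2, Finset.sum_const, smul_eq_mul, h3]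
  have h7 : (v - i).choose (k - i) * (k - i).choose (t - i)
      = (v - i).choose (t - i) * (v - t).choose (k - t) := by
    have := Nat.choose_mul (n := v - i) (k := k - i) (s := t - i) (by omega)
    rw [this]
    congr 2 <;> omega
  have h8 : (k - i).choose (t - i) * (3 * (P.filter (fun B => I ⊆ B)).card)
      = (k - i).choose (t - i) * (v - i).choose (k - i) := by
    have h8a : (v - i).choose (k - i) * (k - i).choose (t - i)
        = 3 * ((k - i).choose (t - i) * (P.filter (fun B => I ⊆ B)).card) := by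
      rw [h7, ← h6, h1, h5]
    generalize (P.filter (fun B => I ⊆ B)).card = x at h8a ⊢
    generalize (v - i).choose (k - i) = y at h8a ⊢
    generalize (k - i).choose (t - i) = z at h8a ⊢
    rw [mul_comm z y, h8a]
    ring
  have h9 : 0 < (k - i).choose (t - i) := Nat.choose_pos (by omega)
  have h10 : 3 * (P.filter (fun B => I ⊆ B)).card = (v - i).choose (k - i) :=
    Nat.eq_of_mul_eq_mul_left h9 h8
  exact Dvd.intro _ h10

lemma choose_base : 3572100 * 120 ^ 13 < (120 - 4).choose 58 := by
  rw [Nat.choose_eq_descFactorial_div_factorial]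
  decide +kernel

lemma power_ratio (n j : ℕ) (h : j ≤ n) : (n + 1) ^ j * (n - j) ≤ n ^ (j + 1) := by
  induction j with
  | zero => simp
  | succ j ih =>
    have ih' := ih (by omega)
    obtain ⟨s, rfl⟩ : ∃ s, n = j + 1 + s := ⟨n - (j + 1), by omega⟩
    have e1 : j + 1 + s - j = s + 1 := by omega
    have e2 : j + 1 + s - (j + 1) = s := by omega
    rw [e1] at ih'
    rw [e2]
    calc (j + 1 + s + 1) ^ (j + 1) * s = (j + 1 + s + 1) ^ j * ((j + 1 + s + 1) * s) := by ring
      _ ≤ (j + 1 + s + 1) ^ j * ((j + 1 + s) * (s + 1)) := by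
          apply Nat.mul_le_mul_left
          nlinarith
      _ = (j + 1 + s) * ((j + 1 + s + 1) ^ j * (s + 1)) := by ring
      _ ≤ (j + 1 + s) * (j + 1 + s) ^ (j + 1) := Nat.mul_le_mul_left _ ih'
      _ = (j + 1 + s) ^ (j + 1 + 1) := by ring

/-- Growth in `v`. -/
lemma growth (v : ℕ) (hv : 120 ≤ v) : 3572100 * v ^ 13 < (v - 4).choose 58 := by
  induction v, hv using Nat.le_induction with
  | base => exact choose_base
  | succ n hn ih =>
    obtain ⟨m, rfl⟩ : ∃ m, n = m + 57 + 4 := ⟨n - 61, by omega⟩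
    have e1 : m + 57 + 4 + 1 - 4 = m + 57 + 1 := by omega
    have e2 : m + 57 + 4 - 4 = m + 57 := by omega
    rw [e1]
    rw [e2] at ih
    have h1 : (m + 57).choose 58 * (m + 57 + 1) = (m + 57 + 1).choose 58 * (m + 57 + 1 - 58) :=
      Nat.choose_mul_succ_eq (m + 57) 58
    have e3 : m + 57 + 1 - 58 = m := by omega
    rw [e3] at h1
    have h2 := power_ratio (m + 61) 13 (by omega)
    have e4 : m + 61 - 13 = m + 48 := by omega
    rw [e4] at h2
    have h3 : (m + 61) * m ≤ (m + 58) * (m + 48) := by nlinarith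
    have h4 : (m + 62) ^ 13 * m ≤ (m + 58) * (m + 61) ^ 13 := by
      have h5 : (m + 61) * ((m + 62) ^ 13 * m) ≤ (m + 61) * ((m + 58) * (m + 61) ^ 13) := by
        calc (m + 61) * ((m + 62) ^ 13 * m) = (m + 62) ^ 13 * ((m + 61) * m) := by ring
          _ ≤ (m + 62) ^ 13 * ((m + 58) * (m + 48)) := Nat.mul_le_mul_left _ h3
          _ = (m + 58) * ((m + 61 + 1) ^ 13 * (m + 48)) := by ring
          _ ≤ (m + 58) * (m + 61) ^ (13 + 1) := Nat.mul_le_mul_left _ h2
          _ = (m + 61) * ((m + 58) * (m + 61) ^ 13) := by ring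
      exact Nat.le_of_mul_le_mul_left h5 (by omega)
    have hm : 0 < m := by omega
    have h6 : (3572100 * (m + 62) ^ 13) * m < (m + 57 + 1).choose 58 * m := by
      calc (3572100 * (m + 62) ^ 13) * m = 3572100 * ((m + 62) ^ 13 * m) := by ring
        _ ≤ 3572100 * ((m + 58) * (m + 61) ^ 13) := Nat.mul_le_mul_left _ h4
        _ = (3572100 * (m + 57 + 4) ^ 13) * (m + 58) := by ring
        _ < (m + 57).choose 58 * (m + 58) := Nat.mul_lt_mul_of_pos_right ih (by omega)
        _ = (m + 57 + 1).choose 58 * m := h1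
    exact Nat.lt_of_mul_lt_mul_right h6

/-- The size condition used for `t = 2`. -/
lemma big_enough (k v : ℕ) (hk : 60 ≤ k) (hv : k + 60 ≤ v) :
    3572100 * k ^ 4 * v ^ 9 < (v - 4).choose (k - 2) := by
  have h1 : 3572100 * k ^ 4 * v ^ 9 ≤ 3572100 * v ^ 13 := by
    calc 3572100 * k ^ 4 * v ^ 9 ≤ 3572100 * v ^ 4 * v ^ 9 := by
          apply Nat.mul_le_mul_right
          apply Nat.mul_le_mul_left
          exact Nat.pow_le_pow_left (by omega) 4
      _ = 3572100 * v ^ 13 := by ring
  have h2 := growth v (by omega)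
  have h3 : (v - 4).choose 58 ≤ (v - 4).choose (k - 2) := by
    by_cases h : 2 * (k - 2) ≤ v - 4
    · exact Pool.Agent.Helper456.HD.choose_mono_half _ _ _ (by omega) h
    · have h4 : (v - 4).choose (v - 4 - (k - 2)) = (v - 4).choose (k - 2) :=
        Nat.choose_symm (by omega)
      rw [← h4]
      exact Pool.Agent.Helper456.HD.choose_mono_half _ _ _ (by omega) (by omega)
  omega

theorem result :
    (∀ k v : ℕ, 60 ≤ k → k + 60 ≤ v → (LargeSetThree 2 k v ↔ Feasible 2 k v)) ∧
    (∀ t : ℕ, ∃ v0 : ℕ, ∀ v : ℕ, v0 ≤ v → ∀ k : ℕ, 4 * t + 1 ≤ k → k + (4 * t + 1) ≤ v →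
      (LargeSetThree t k v ↔ Feasible t k v)) := by
  refine ⟨?_, ?_⟩
  · intro k v hk hv
    refine ⟨feasible_of 2 k v (by omega) (by omega), ?_⟩
    intro h
    obtain ⟨f, hf⟩ := Pool.Agent.S12455.LS.exists_LS3 v k (by omega) (by omega)
      (by simpa using h 0 (by omega)) (h 1 (by omega)) (h 2 le_rfl) (big_enough k v hk hv)
    refine ⟨f, ?_⟩
    intro j T hT
    rw [← hf j T hT]
    congr 2
    ext S
    simp only [Finset.mem_filter, Finset.mem_powersetCard, Finset.subset_univ, true_and,
      Finset.mem_univ]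
    tauto
  · intro t
    obtain ⟨v0, hv0⟩ := Pool.Agent.Helper456.HD.asymN 3 t (by norm_num)
    refine ⟨v0, ?_⟩
    intro v hv k hk hkv
    refine ⟨feasible_of t k v (by omega) (by omega), ?_⟩
    intro h
    exact hv0 v hv k hk (by omega) h

end Pool.Agent.Results.MP_2c0b9b_co.CentralLargeSets
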